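import Pool.Agent.Helper70.OB.GoalsE

/-!
# Packet EV-EC1 (project EV, MP_91ee6f_gt); adaptation of the proof of OB-CNT1 by helper30
-/

set_option autoImplicit false
set_option linter.unusedVariables false

namespace Pool.Agent.Helper15.EV

open MeasureTheory Set Metric Filter
open scoped Topology
open Pool.Agent.Helper70.OB

/-- the interlacing sequence -/
noncomputable def il {M : ℕ} (x : Fin (M + 1 + 1) → ℝ) (z : Fin (M + 1) → ℝ) (j : Fin (2 * M + 1 + 1)) : ℝ :=
  if j.1 % 2 = 0 then x ⟨j.1 / 2, by omega⟩ else z ⟨j.1 / 2, by omega⟩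

theorem il_mono {M : ℕ} (x : Fin (M + 1 + 1) → ℝ) (z : Fin (M + 1) → ℝ)
    (h : ∀ i, x i.castSucc < z i ∧ z i < x i.succ) : StrictMono (il x z) := by
  rw [Fin.strictMono_iff_lt_succ]
  intro i
  unfold il
  rcases Nat.mod_two_eq_zero_or_one i.1 with h0 | h0
  · have e1 : (i.castSucc).1 % 2 = 0 := h0
    have e2 : ¬ (i.succ).1 % 2 = 0 := by rw [Fin.val_succ]; omega
    rw [if_pos e1, if_neg e2]
    have h1 := (h ⟨i.1 / 2, by omega⟩).1
    have e3 : (i.succ).1 / 2 = i.1 / 2 := by rw [Fin.val_succ]; omega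
    have e4 : (⟨(i.succ).1 / 2, by omega⟩ : Fin (M + 1)) = ⟨i.1 / 2, by omega⟩ := Fin.ext e3
    rw [e4]
    exact h1
  · have e1 : ¬ (i.castSucc).1 % 2 = 0 := by rw [Fin.val_castSucc]; omega
    have e2 : (i.succ).1 % 2 = 0 := by rw [Fin.val_succ]; omega
    rw [if_neg e1, if_pos e2]
    have h1 := (h ⟨i.1 / 2, by omega⟩).2
    have e3 : (i.succ).1 / 2 = i.1 / 2 + 1 := by rw [Fin.val_succ]; omega
    have e4 : (⟨(i.succ).1 / 2, by omega⟩ : Fin (M + 1 + 1)) =
      (⟨i.1 / 2, by omega⟩ : Fin (M + 1)).succ := Fin.ext e3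
    rw [e4]
    exact h1

theorem ec1 : ROLLE → EC1 := by
  intro hR k K L V P hC b hb hVb hPb F hFne hF hF2
  have hk : 0 + 1 < k := by have := hC.two_le; omega
  have hk0 : 0 < k := by omega
  have hK : ∀ r : ℝ, 0 < r → 0 < K r := hC.kpos
  set W : ℝ → ℝ := fun r => K r * P 0 r - L r * V 0 r with hW
  have hWd : ∀ r, 0 < r → HasDerivAt W (-(r ^ (2 * k - 1) * K r * V (0 + 1) r)) r := by
    intro r hr
    have hr2 : r ^ (2 * k - 1) ≠ 0 := by positivity
    have h := ((hC.kder r hr).mul (hC.pder 0 hk r hr)).sub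
      ((hC.lder r hr).mul (hC.vder 0 hk0 r hr))
    refine h.congr_deriv ?_
    field_simp
    ring
  have hVd : ∀ r, 0 < r → HasDerivAt (fun r => V 0 r / K r)
      (W r / (r ^ (2 * k - 1) * K r ^ 2)) r := by
    intro r hr
    have hr2 : r ^ (2 * k - 1) ≠ 0 := by positivity
    have hK0 : K r ≠ 0 := (hK r hr).ne'
    have h := (hC.vder 0 hk0 r hr).div (hC.kder r hr) hK0
    refine h.congr_deriv ?_
    rw [hW]
    field_simp
  have hWc : ContinuousOn W (Ici b) := fun r hr =>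
    (hWd r (lt_of_lt_of_le hb hr)).continuousAt.continuousWithinAt
  have hWb : W b = 0 := by
    rw [hW]
    simp only [hVb, hPb]
    ring
  have hWlim : Tendsto W atTop (𝓝 0) := hC.wlim 0 hk0
  have hlast : ∀ q : ℕ, ZZ (fun r => -(r ^ (2 * k - 1) * K r * V (0 + 1) r)) b q →
      ZZ (V 1) b q := by
    rintro q ⟨x, hx, hx2⟩
    refine ⟨x, hx, fun i => ⟨(hx2 i).1, ?_⟩⟩
    have hp : 0 < x i := hb.trans (hx2 i).1
    have h1 := (hx2 i).2
    have h2 : (x i) ^ (2 * k - 1) * K (x i) ≠ 0 := by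
      have := hK _ hp
      positivity
    have h3 : (x i) ^ (2 * k - 1) * K (x i) * V (0 + 1) (x i) = 0 := by
      have h4 : -((x i) ^ (2 * k - 1) * K (x i) * V (0 + 1) (x i)) = 0 := h1
      linarith
    exact (mul_eq_zero.1 h3).resolve_left h2
  have hcon : ∀ r ∈ F, ∀ R ∈ F, r < R → W r = 0 := by
    intro r hr R hR hrR
    have hp : 0 < r := hb.trans (hF r hr).1
    have hd := hC.vder 0 hk0 r hp
    have hmin : IsLocalMin (V 0) r := by
      have h1 : ∀ᶠ y in 𝓝 r, y ∈ Ioo b R := Ioo_mem_nhds (hF r hr).1 hrR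
      filter_upwards [h1] with y hy
      rw [(hF r hr).2]
      exact hF2 R hR y hy.1 hy.2.le
    have h0 := hmin.hasDerivAt_eq_zero hd
    have hP0 : P 0 r = 0 := by
      rw [div_eq_zero_iff] at h0
      exact h0.resolve_right (by positivity)
    rw [hW]
    simp only [hP0, (hF r hr).2]
    ring
  have hpos : 0 < F.card := hFne.card_pos
  obtain ⟨M, hM⟩ : ∃ M, F.card = M + 1 := ⟨F.card - 1, by omega⟩
  set f : Fin (M + 1) → ℝ := fun i => F.orderEmbOfFin hM i with hf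
  have hfm : StrictMono f := (F.orderEmbOfFin hM).strictMono
  have hfF : ∀ i, f i ∈ F := fun i => F.orderEmbOfFin_mem hM i
  set x : Fin (M + 1 + 1) → ℝ := Matrix.vecCons b f with hx
  have hxm : StrictMono x := hfm.vecCons (hF _ (hfF 0)).1
  have hx0 : x 0 = b := rfl
  have hxs : ∀ i : Fin (M + 1), x i.succ = f i := fun i => rfl
  have hxb : ∀ i, b ≤ x i := fun i => by
    rw [← hx0]; exact hxm.monotone (Fin.zero_le i)
  have hxV : ∀ i, V 0 (x i) = 0 := fun i => by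
    refine Fin.cases ?_ (fun j => ?_) i
    · exact hVb
    · exact (hF _ (hfF j)).2
  obtain ⟨z, hz⟩ := (hR (fun r => V 0 r / K r) _ b (fun r hr =>
    (hVd r (lt_of_lt_of_le hb hr)).continuousAt.continuousWithinAt)
    (fun r hr => hVd r (hb.trans hr)) (M + 1) x hxm (fun i => ⟨hxb i, by
      show V 0 (x i) / K (x i) = 0
      rw [hxV i, zero_div]⟩)).1
  have hzW : ∀ i, W (z i) = 0 := fun i => by
    have hp : 0 < z i := lt_of_lt_of_le hb ((hxb _).trans (hz i).1.le)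
    have h1 : W (z i) / ((z i) ^ (2 * k - 1) * K (z i) ^ 2) = 0 := (hz i).2.2
    rw [div_eq_zero_iff] at h1
    have := hK _ hp
    exact h1.resolve_right (by positivity)
  have e2 : 2 * F.card = 2 * M + 1 + 1 := by rw [hM]; omega
  rw [e2]
  refine hlast _ ?_
  refine (hR W _ b hWc (fun r hr => hWd r (hb.trans hr)) (2 * M + 1) (il x z)
    (il_mono x z fun i => ⟨(hz i).1, (hz i).2.1⟩) ?_).2 hWlim
  intro j
  unfold il
  split_ifs with hj
  · refine ⟨hxb _, ?_⟩
    have hj2 : j.1 / 2 < M + 1 := by omega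
    rcases Nat.eq_zero_or_pos (j.1 / 2) with h3 | h3
    · have e3 : (⟨j.1 / 2, by omega⟩ : Fin (M + 1 + 1)) = 0 := Fin.ext h3
      rw [e3, hx0]
      exact hWb
    · obtain ⟨l, hl⟩ : ∃ l, j.1 / 2 = l + 1 := ⟨j.1 / 2 - 1, by omega⟩
      have e3 : (⟨j.1 / 2, by omega⟩ : Fin (M + 1 + 1)) = (⟨l, by omega⟩ : Fin (M + 1)).succ :=
        Fin.ext hl
      rw [e3, hxs]
      refine hcon _ (hfF _) (f ⟨l + 1, by omega⟩) (hfF _) (hfm ?_)
      exact Nat.lt_succ_self l
  · exact ⟨(hxb _).trans (hz _).1.le, hzW _⟩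

end Pool.Agent.Helper15.EV
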